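import Pool.Agent.GEN.StmtsZ
import Pool.Agent.Helper73_Simp2.Zalg

/-!
# Squad GEN, row LCW: localisation at one of the points (author helper23)
-/

set_option autoImplicit false

namespace Pool.Agent.GEN.H23

open Finset Pool.Agent.GEN Pool.Agent.Helper6_Mono Pool.Agent.Helper30_Simp
  Pool.Agent.Helper30_Simp2 Pool.Agent.Helper30_Simp2.H73

theorem triv_univ {σ : Type} [Fintype σ] {M : Finset (σ →₀ ℕ)} (hM : M.Nonempty) (u : σ → ℕ)
    (N : ℕ) (h : InK M (univ : Finset (Wa M)) u N) : u = 0 ∧ N = 0 := by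
  have h1 : u = 0 := by
    funext i
    have h2 := h.2 (Sum.inl i) (Finset.mem_univ _)
    simp only [slk] at h2
    exact_mod_cast h2
  refine ⟨h1, ?_⟩
  obtain ⟨α, hα⟩ := hM
  have h2 := h.2 (Sum.inr ⟨α, hα⟩) (Finset.mem_univ _)
  rw [h1] at h2
  simp only [slk, dot_zero] at h2
  omega

/-- **LCW** -/
theorem lcw : LcwStmt := by
  classical
  intro σ _ M hM A _ τ a hEv hXs R W hW w hw
  intro n
  induction n with
  | zero =>
    intro R' hR hn _
    have hR' : R' = univ := by
      have h1 : univ \ R' = ∅ := Finset.card_eq_zero.1 (Nat.le_zero.1 hn)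
      exact Finset.Subset.antisymm (Finset.subset_univ _) (Finset.sdiff_eq_empty_iff_subset.1 h1)
    subst hR'
    exact a.mul_mem_left _ (hXs _ (triv_univ hM))
  | succ m ih =>
    intro R' hR hn hK
    by_cases htr : ∀ u N, InK M R' u N → u = 0 ∧ N = 0
    · exact a.mul_mem_left _ (hXs _ htr)
    obtain ⟨w', hw', hw'K⟩ := hW R' hR (by
      push Not at htr
      obtain ⟨u, N, h1, h2⟩ := htr
      refine ⟨u, N, h1, ?_⟩
      by_cases hu : u = 0
      · exact Or.inr (h2 hu)
      · exact Or.inl hu)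
    have hne : w' ≠ w := by
      rintro rfl
      exact hK hw'K
    set q : MvPolynomial (Wa M) A :=
      ∏ w' ∈ W.erase w, (ET M A ^ w'.2 - MvPolynomial.C (τ w'.1)) with hq
    have e2 : (1 - ∏ ρ, (MvPolynomial.X ρ : MvPolynomial (Wa M) A) ^ (slk M w'.1 w'.2 ρ).toNat) *
        (q ^ (m + 1) * Xs M A R') ∈ a := by
      refine mem_of_walls _ _ _ fun ρ _ hρ => ?_
      have hρS : ρ ∉ R' := by
        intro h
        exact hρ (by rw [hw'K.2 ρ h]; rfl)
      have e3 := ih (insert ρ R') (hR.trans (Finset.subset_insert ρ R')) (by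
        have h1 : (univ \ insert ρ R').card < (univ \ R').card := by
          apply Finset.card_lt_card
          refine ⟨Finset.sdiff_subset_sdiff (Finset.Subset.refl _) (Finset.subset_insert ρ R'),
            fun hh => ?_⟩
          have := hh (Finset.mem_sdiff.2 ⟨Finset.mem_univ ρ, hρS⟩)
          simp at this
        omega) (fun h => hK (inK_mono (Finset.subset_insert ρ R') h))
      rw [Xs_insert hρS] at e3
      have e4 : (1 - MvPolynomial.X ρ) * (q ^ (m + 1) * Xs M A R') =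
          q ^ (m + 1) * ((1 - MvPolynomial.X ρ) * Xs M A R') := by ring
      rw [e4]
      exact e3
    have e1 := a.mul_mem_right (q ^ (m + 1) * Xs M A R') (hEv w'.1)
    have e3 := a.add_mem (a.mul_mem_left (ET M A ^ w'.2) e2) e1
    rw [Ev_eq hw'K.1] at e3
    have e4 : (ET M A ^ w'.2 - MvPolynomial.C (τ w'.1)) * (q ^ (m + 1) * Xs M A R') ∈ a := by
      have e5 : (ET M A ^ w'.2 - MvPolynomial.C (τ w'.1)) * (q ^ (m + 1) * Xs M A R') =
          ET M A ^ w'.2 * ((1 - ∏ ρ, (MvPolynomial.X ρ : MvPolynomial (Wa M) A) ^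
            (slk M w'.1 w'.2 ρ).toNat) * (q ^ (m + 1) * Xs M A R')) +
          (ET M A ^ w'.2 * ∏ ρ, MvPolynomial.X ρ ^ (slk M w'.1 w'.2 ρ).toNat -
            MvPolynomial.C (τ w'.1)) * (q ^ (m + 1) * Xs M A R') := by ring
      rw [e5]
      exact e3
    have hmem : w' ∈ W.erase w := Finset.mem_erase.2 ⟨hne, hw'⟩
    have e6 : q = (ET M A ^ w'.2 - MvPolynomial.C (τ w'.1)) *
        ∏ v ∈ (W.erase w).erase w', (ET M A ^ v.2 - MvPolynomial.C (τ v.1)) := by
      rw [hq, Finset.mul_prod_erase _ (fun v : (σ → ℕ) × ℕ =>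
        ET M A ^ v.2 - MvPolynomial.C (τ v.1)) hmem]
    have e7 : q ^ (m + 1 + 1) * Xs M A R' =
        (∏ v ∈ (W.erase w).erase w', (ET M A ^ v.2 - MvPolynomial.C (τ v.1))) *
        ((ET M A ^ w'.2 - MvPolynomial.C (τ w'.1)) * (q ^ (m + 1) * Xs M A R')) := by
      have e8 : q ^ (m + 1 + 1) * Xs M A R' = q * (q ^ (m + 1) * Xs M A R') := by
        rw [pow_succ' q (m + 1)]
        ring
      rw [e8]
      nth_rewrite 1 [e6]
      ring
    rw [e7]
    exact a.mul_mem_left _ e4

end Pool.Agent.GEN.H23
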